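import Mathlib

set_option autoImplicit false

/-!
# The parameters `τ` and `β` of antimagic labellings: `τ(K_{2,r}) < β(K_{2,r})`

Counting: in an antimagic labelling of `K_{2,r} ∪ t P_3` the `r + 3t` vertices different from the
two vertices of degree `r` have distinct positive sums, the two vertices of degree `r` together
see `2r` different labels, and the total of all vertex sums is `M (M + 1)`, `M = 2r + 2t`.
-/

open SimpleGraph Finset

namespace Pool.Agent.Results.MP_f5b38d_co.TauBelowBeta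

/-- `t P₃`: the disjoint union of `t` copies of the path on three vertices. -/
def paths3 (t : ℕ) : SimpleGraph (Fin t × Fin 3) where
  Adj x y := x.1 = y.1 ∧ (pathGraph 3).Adj x.2 y.2
  symm := ⟨fun _ _ h => ⟨h.1.symm, h.2.symm⟩⟩
  loopless := ⟨fun _ h => (pathGraph 3).irrefl h.2⟩

open Classical in
/-- The sum of the labels `f (vw)` of the edges `vw` at the vertex `v`. -/
noncomputable def vsum {V : Type} [Fintype V] (G : SimpleGraph V) (f : Sym2 V → ℕ) (v : V) : ℕ :=
  ∑ w : V, if G.Adj v w then f s(v, w) else 0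

/-- `G` is antimagic: the edges can be labelled bijectively by `1, …, m` with distinct sums at
distinct vertices. -/
def IsAntimagic {V : Type} [Fintype V] (G : SimpleGraph V) : Prop :=
  ∃ f : Sym2 V → ℕ, Set.BijOn f G.edgeSet (Set.Icc 1 G.edgeSet.ncard) ∧
    Function.Injective (vsum G f)

/-- `τ(G)`: the largest `t` such that `G ∪ t' P₃` is antimagic for all `t' ≤ t`; `-∞` if there is
none. -/
noncomputable def tau {V : Type} [Fintype V] (G : SimpleGraph V) : EReal :=
  ⨆ t ∈ {t : ℕ | ∀ t' ≤ t, IsAntimagic (G ⊕g paths3 t')}, ((t : ℝ) : EReal)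

/-- The number of internal edges: edges with no end of degree one. -/
noncomputable def internal {V : Type} (G : SimpleGraph V) : ℕ :=
  {e ∈ G.edgeSet | ∀ v ∈ e, (G.neighborSet v).ncard ≠ 1}.ncard

/-- The number of components isomorphic to the path on three vertices. -/
noncomputable def compP3 {V : Type} (G : SimpleGraph V) : ℕ :=
  {c : G.ConnectedComponent | Nonempty (G.induce c.supp ≃g pathGraph 3)}.ncard

/-- The number `β(G)` of the problem. -/
noncomputable def beta {V : Type} [Fintype V] (G : SimpleGraph V) : ℤ :=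
  ⌊min ((3 + 2 * √2) * ((G.edgeSet.ncard : ℝ) - Fintype.card V) +
      (1 + √2) * ((G.edgeSet.ncard : ℝ) + 1 / 2))
    (2 * (G.edgeSet.ncard : ℝ) + 5 * ((internal G : ℝ) - compP3 G) + 1)⌋

/-! ### Counting -/

theorem sum_ge (s : Finset ℕ) (h : ∀ x ∈ s, 1 ≤ x) : s.card * (s.card + 1) ≤ 2 * ∑ x ∈ s, x := by
  induction' hn : s.card with n ih generalizing s
  · simp
  · have hne : s.Nonempty := by
      rw [← Finset.card_pos]; omega
    have hm := s.max'_mem hne
    have hcard : (s.erase (s.max' hne)).card = n := by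
      rw [Finset.card_erase_of_mem hm]; omega
    have h1 := ih (s.erase (s.max' hne)) (fun x hx => h x (Finset.mem_of_mem_erase hx)) hcard
    have h2 : ∑ x ∈ s, x = s.max' hne + ∑ x ∈ s.erase (s.max' hne), x :=
      (Finset.add_sum_erase s (fun x => x) hm).symm
    have h3 : n + 1 ≤ s.max' hne := by
      have hsub : s ⊆ Finset.Icc 1 (s.max' hne) := fun x hx =>
        Finset.mem_Icc.2 ⟨h x hx, Finset.le_max' s x hx⟩
      have := Finset.card_le_card hsub
      rw [Nat.card_Icc] at this
      omega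
    rw [h2]
    nlinarith

theorem sum_ge' {ι : Type} (T : Finset ι) (g : ι → ℕ) (hg : Set.InjOn g T)
    (h : ∀ x ∈ T, 1 ≤ g x) : T.card * (T.card + 1) ≤ 2 * ∑ x ∈ T, g x := by
  classical
  have h1 := sum_ge (T.image g) (by
    intro x hx
    obtain ⟨y, hy, rfl⟩ := Finset.mem_image.1 hx
    exact h y hy)
  rw [Finset.card_image_of_injOn hg, Finset.sum_image hg] at h1
  exact h1

open Classical in
theorem sum_vsum {V : Type} [Fintype V] (G : SimpleGraph V) (f : Sym2 V → ℕ) :
    ∑ v, vsum G f v = 2 * ∑ e ∈ G.edgeFinset, f e := by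
  have h1 : ∑ v, vsum G f v =
      ∑ p ∈ (Finset.univ : Finset (V × V)).filter (fun p => G.Adj p.1 p.2), f s(p.1, p.2) := by
    rw [Finset.sum_filter, Fintype.sum_prod_type]
    rfl
  rw [h1, ← Finset.sum_fiberwise_of_maps_to (t := G.edgeFinset) (g := fun p : V × V => s(p.1, p.2))
    (by
      intro p hp
      rw [Finset.mem_filter] at hp
      rw [mem_edgeFinset]
      exact hp.2), Finset.mul_sum]
  refine Finset.sum_congr rfl fun e he => ?_
  rw [mem_edgeFinset] at he
  induction e using Sym2.ind with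
  | _ a b =>
    have hab : G.Adj a b := he
    have hset : ((Finset.univ : Finset (V × V)).filter (fun p => G.Adj p.1 p.2)).filter
        (fun p : V × V => s(p.1, p.2) = s(a, b)) = {(a, b), (b, a)} := by
      ext ⟨x, y⟩
      simp only [Finset.mem_filter, Finset.mem_univ, true_and, Sym2.eq_iff, Finset.mem_insert,
        Finset.mem_singleton, Prod.mk.injEq]
      constructor
      · rintro ⟨_, h⟩
        exact h
      · rintro (⟨rfl, rfl⟩ | ⟨rfl, rfl⟩)
        · exact ⟨hab, Or.inl ⟨rfl, rfl⟩⟩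
        · exact ⟨hab.symm, Or.inr ⟨rfl, rfl⟩⟩
    rw [hset, Finset.sum_pair (by
      intro h
      exact hab.ne (Prod.mk.inj h).1)]
    rw [Sym2.eq_swap (a := b) (b := a)]
    ring

theorem two_ncard {V : Type} [Fintype V] (G : SimpleGraph V) :
    ∑ v, vsum G (fun _ => 1) v = 2 * G.edgeSet.ncard := by
  classical
  rw [sum_vsum, Finset.sum_const, smul_eq_mul, mul_one, Set.ncard_eq_toFinset_card']
  congr 2

/-- `K_{2,r}` -/
abbrev K (r : ℕ) : SimpleGraph (Fin 2 ⊕ Fin r) := completeBipartiteGraph (Fin 2) (Fin r)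

theorem ncard_K (r : ℕ) : (K r).edgeSet.ncard = 2 * r := by
  have h := two_ncard (K r)
  have e1 : ∀ i : Fin 2, vsum (K r) (fun _ => 1) (.inl i) = r := by
    intro i
    simp only [vsum, Fintype.sum_sum_type]
    simp [completeBipartiteGraph]
  have e2 : ∀ j : Fin r, vsum (K r) (fun _ => 1) (.inr j) = 2 := by
    intro i
    simp only [vsum, Fintype.sum_sum_type]
    simp [completeBipartiteGraph]
  rw [Fintype.sum_sum_type] at h
  simp only [e1, e2, Finset.sum_const, Finset.card_univ, Fintype.card_fin, smul_eq_mul] at h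
  omega

theorem ncard_paths3 (t : ℕ) : (paths3 t).edgeSet.ncard = 2 * t := by
  classical
  have h := two_ncard (paths3 t)
  have e1 : ∀ (a : Fin t) (c : Fin 3), vsum (paths3 t) (fun _ => 1) (a, c) =
      ∑ d : Fin 3, if (pathGraph 3).Adj c d then 1 else 0 := by
    intro a c
    simp only [vsum, Fintype.sum_prod_type]
    have : ∀ b : Fin t, (∑ d : Fin 3, if (paths3 t).Adj (a, c) (b, d) then 1 else 0) =
        if a = b then (∑ d : Fin 3, if (pathGraph 3).Adj c d then 1 else 0) else 0 := by
      intro b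
      by_cases hab : a = b
      · simp [paths3, hab]
      · simp [paths3, hab]
    rw [Finset.sum_congr rfl fun b _ => this b]
    simp
  rw [Fintype.sum_prod_type] at h
  simp only [e1] at h
  have e2 : (∑ c : Fin 3, ∑ d : Fin 3, if (pathGraph 3).Adj c d then 1 else 0) = 4 := by
    simp only [pathGraph_adj]
    decide
  rw [Finset.sum_congr rfl fun _ _ => e2] at h
  simp at h
  omega

theorem ncard_sum {V W : Type} [Fintype V] [Fintype W] (G : SimpleGraph V) (H : SimpleGraph W) :
    (G ⊕g H).edgeSet.ncard = G.edgeSet.ncard + H.edgeSet.ncard := by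
  have h := two_ncard (G ⊕g H)
  rw [Fintype.sum_sum_type] at h
  have e1 : ∀ v, vsum (G ⊕g H) (fun _ => 1) (.inl v) = vsum G (fun _ => 1) v := by
    intro v
    have : ∀ w, ¬ (G ⊕g H).Adj (.inl v) (.inr w) := by simp
    simp only [vsum, Fintype.sum_sum_type, this, if_false, Finset.sum_const_zero, add_zero]
    refine Finset.sum_congr rfl fun w _ => ?_
    by_cases h : G.Adj v w <;> simp [h]
  have e2 : ∀ v, vsum (G ⊕g H) (fun _ => 1) (.inr v) = vsum H (fun _ => 1) v := by
    intro v
    have : ∀ w, ¬ (G ⊕g H).Adj (.inr v) (.inl w) := by simp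
    simp only [vsum, Fintype.sum_sum_type, this, if_false, Finset.sum_const_zero, zero_add]
    refine Finset.sum_congr rfl fun w _ => ?_
    by_cases h : H.Adj v w <;> simp [h]
  rw [Finset.sum_congr rfl fun v _ => e1 v, Finset.sum_congr rfl fun v _ => e2 v, two_ncard,
    two_ncard] at h
  omega

theorem vsum_hub {r t : ℕ} (f : Sym2 ((Fin 2 ⊕ Fin r) ⊕ (Fin t × Fin 3)) → ℕ) (i : Fin 2) :
    vsum (K r ⊕g paths3 t) f (.inl (.inl i)) = ∑ j : Fin r, f s(.inl (.inl i), .inl (.inr j)) := by
  simp [vsum, Fintype.sum_sum_type, completeBipartiteGraph]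

open Classical in
theorem one_le_vsum {V : Type} [Fintype V] (G : SimpleGraph V) (f : Sym2 V → ℕ)
    (hf : ∀ e ∈ G.edgeSet, 1 ≤ f e) {v w : V} (h : G.Adj v w) : 1 ≤ vsum G f v := by
  have h1 : (if G.Adj v w then f s(v, w) else 0) ≤ vsum G f v :=
    Finset.single_le_sum (f := fun w => if G.Adj v w then f s(v, w) else 0)
      (fun _ _ => Nat.zero_le _) (Finset.mem_univ w)
  rw [if_pos h] at h1
  exact (hf _ h).trans h1

/-- The counting inequality. -/
theorem key {r t : ℕ} (h : IsAntimagic (K r ⊕g paths3 t)) :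
    t * t ≤ 10 * r * t + 3 * r * r + r + t := by
  classical
  obtain ⟨f, hf, hinj⟩ := h
  set G := K r ⊕g paths3 t with hG
  have hM : G.edgeSet.ncard = 2 * r + 2 * t := by rw [hG, ncard_sum, ncard_K, ncard_paths3]
  have hpos : ∀ e ∈ G.edgeSet, 1 ≤ f e := fun e he => (hf.mapsTo he).1
  -- the total
  have htot : ∑ e ∈ G.edgeFinset, f e = ∑ i ∈ Finset.Icc 1 (2 * r + 2 * t), i := by
    refine Finset.sum_nbij f ?_ ?_ ?_ (fun _ _ => rfl)
    · intro e he
      have := hf.mapsTo (mem_edgeFinset.1 he)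
      rw [hM] at this
      exact Finset.mem_Icc.2 this
    · intro a ha b hb hab
      exact hf.injOn (by simpa using ha) (by simpa using hb) hab
    · intro i hi
      have : i ∈ Set.Icc 1 G.edgeSet.ncard := by
        rw [hM]
        simpa using hi
      obtain ⟨e, he, rfl⟩ := hf.surjOn this
      exact ⟨e, by simpa using he, rfl⟩
  have hIcc : 2 * ∑ i ∈ Finset.Icc 1 (2 * r + 2 * t), i = (2 * r + 2 * t) * (2 * r + 2 * t + 1) := by
    have := Finset.sum_range_id_mul_two (2 * r + 2 * t + 1)
    rw [Finset.range_eq_Ico, Finset.sum_eq_sum_Ico_succ_bot (by omega)] at this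
    have h2 : Finset.Ico (0 + 1) (2 * r + 2 * t + 1) = Finset.Icc 1 (2 * r + 2 * t) := by
      ext x; simp [Finset.mem_Icc, Finset.mem_Ico]
    rw [h2] at this
    simp only [zero_add, Nat.add_sub_cancel] at this
    rw [mul_comm, this]
    ring
  have hsum := sum_vsum G f
  rw [htot, hIcc] at hsum
  -- the two vertices of degree `r`
  have hhub : 2 * r * (2 * r + 1) ≤ 2 * ∑ i : Fin 2, vsum G f (.inl (.inl i)) := by
    have e1 : ∑ i : Fin 2, vsum G f (.inl (.inl i)) =
        ∑ p : Fin 2 × Fin r, f s(.inl (.inl p.1), .inl (.inr p.2)) := by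
      rw [Fintype.sum_prod_type]
      exact Finset.sum_congr rfl fun i _ => vsum_hub f i
    rw [e1]
    have hadj : ∀ p : Fin 2 × Fin r,
        s(.inl (.inl p.1), .inl (.inr p.2)) ∈ G.edgeSet := by
      intro p
      rw [mem_edgeSet, hG]
      simp [completeBipartiteGraph]
    have := sum_ge' (Finset.univ : Finset (Fin 2 × Fin r))
      (fun p => f s(.inl (.inl p.1), .inl (.inr p.2))) (by
        intro p _ q _ hpq
        have := hf.injOn (hadj p) (hadj q) hpq
        rw [Sym2.eq_iff] at this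
        simp at this
        exact Prod.ext this.1 this.2) (fun p _ => hpos _ (hadj p))
    simpa using this
  -- the other vertices
  have hoth : (r + 3 * t) * (r + 3 * t + 1) ≤
      2 * (∑ j : Fin r, vsum G f (.inl (.inr j)) + ∑ q : Fin t × Fin 3, vsum G f (.inr q)) := by
    have e1 : ∑ j : Fin r, vsum G f (.inl (.inr j)) + ∑ q : Fin t × Fin 3, vsum G f (.inr q) =
        ∑ x : Fin r ⊕ (Fin t × Fin 3), vsum G f (Sum.elim (fun j => .inl (.inr j)) .inr x) := by
      rw [Fintype.sum_sum_type]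
      rfl
    rw [e1]
    have := sum_ge' (Finset.univ : Finset (Fin r ⊕ (Fin t × Fin 3)))
      (fun x => vsum G f (Sum.elim (fun j => .inl (.inr j)) .inr x)) (by
        intro x _ y _ hxy
        have := hinj hxy
        rcases x with x | x <;> rcases y with y | y <;> simp_all) (by
        intro x _
        rcases x with j | ⟨a, c⟩
        · refine one_le_vsum G f hpos (w := .inl (.inl 0)) ?_
          rw [hG]
          simp [completeBipartiteGraph]
        · by_cases hc : c = 1
          · refine one_le_vsum G f hpos (w := .inr (a, 0)) ?_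
            subst hc
            rw [hG]
            simp [paths3, pathGraph_adj]
          · refine one_le_vsum G f hpos (w := .inr (a, 1)) ?_
            rw [hG]
            fin_cases c <;> simp_all [paths3, pathGraph_adj])
    have hc : (Finset.univ : Finset (Fin r ⊕ (Fin t × Fin 3))).card = r + 3 * t := by
      simp
      ring
    rw [hc] at this
    exact this
  rw [Fintype.sum_sum_type, Fintype.sum_sum_type] at hsum
  nlinarith

/-! ### The number `β` -/

theorem nbr_inl {r : ℕ} (i : Fin 2) : ((K r).neighborSet (.inl i)).ncard = r := by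
  have : (K r).neighborSet (.inl i) = Set.range (Sum.inr : Fin r → Fin 2 ⊕ Fin r) := by
    ext x
    rcases x with x | x <;> simp [completeBipartiteGraph]
  rw [this, Set.ncard_range_of_injective Sum.inr_injective]
  simp

theorem nbr_inr {r : ℕ} (j : Fin r) : ((K r).neighborSet (.inr j)).ncard = 2 := by
  have : (K r).neighborSet (.inr j) = Set.range (Sum.inl : Fin 2 → Fin 2 ⊕ Fin r) := by
    ext x
    rcases x with x | x <;> simp [completeBipartiteGraph]
  rw [this, Set.ncard_range_of_injective Sum.inl_injective]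
  simp

theorem internal_K {r : ℕ} (hr : 2 ≤ r) : internal (K r) = 2 * r := by
  rw [internal, ← ncard_K r]
  congr 1
  ext e
  simp only [Set.mem_ofPred_eq, and_iff_left_iff_imp]
  intro _ v _
  rcases v with v | v
  · rw [nbr_inl]; omega
  · rw [nbr_inr]; omega

theorem two_nbrs {r : ℕ} (hr : 2 ≤ r) (v : Fin 2 ⊕ Fin r) :
    ∃ a b, a ≠ b ∧ (K r).Adj v a ∧ (K r).Adj v b := by
  rcases v with v | v
  · exact ⟨.inr ⟨0, by omega⟩, .inr ⟨1, by omega⟩, by simp, by simp [completeBipartiteGraph],
      by simp [completeBipartiteGraph]⟩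
  · exact ⟨.inl 0, .inl 1, by simp, by simp [completeBipartiteGraph],
      by simp [completeBipartiteGraph]⟩

theorem no_path {V : Type} (G : SimpleGraph V)
    (h2 : ∀ v, ∃ a b, a ≠ b ∧ G.Adj v a ∧ G.Adj v b) (c : G.ConnectedComponent) (n : ℕ) :
    IsEmpty (G.induce c.supp ≃g pathGraph (n + 2)) := by
  refine ⟨fun φ => ?_⟩
  set x := φ.symm 0 with hx
  obtain ⟨a, b, hab, ha, hb⟩ := h2 x.1
  have hac : a ∈ c.supp := (c.mem_supp_congr_adj ha).1 x.2
  have hbc : b ∈ c.supp := (c.mem_supp_congr_adj hb).1 x.2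
  have key : ∀ y : c.supp, G.Adj x.1 y.1 → (φ y).val = 1 := by
    intro y hy
    have h1 : (G.induce c.supp).Adj x y := hy
    have h3 := φ.map_adj_iff.2 h1
    rw [hx, φ.apply_symm_apply, pathGraph_adj] at h3
    rcases h3 with h3 | h3
    · simpa using h3.symm
    · simp at h3
  have h4 : φ ⟨a, hac⟩ = φ ⟨b, hbc⟩ := Fin.ext ((key ⟨a, hac⟩ ha).trans (key ⟨b, hbc⟩ hb).symm)
  exact hab (congrArg Subtype.val (φ.injective h4))

theorem compP3_K {r : ℕ} (hr : 2 ≤ r) : compP3 (K r) = 0 := by
  have : {c : (K r).ConnectedComponent | Nonempty ((K r).induce c.supp ≃g pathGraph 3)} = ∅ := by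
    ext c
    simp only [Set.mem_ofPred_eq, Set.mem_empty_iff_false, iff_false, not_nonempty_iff]
    exact no_path (K r) (two_nbrs hr) c 1
  rw [compP3, this, Set.ncard_empty]

theorem beta_K {r : ℕ} (hr : 2 ≤ r) :
    beta (K r) = ⌊(5 + 4 * √2) * (r : ℝ) - (11 + 7 * √2) / 2⌋ := by
  have h2 : √2 ≤ 3 / 2 := by
    rw [Real.sqrt_le_left (by norm_num)]
    norm_num
  have h0 : 0 ≤ √2 := Real.sqrt_nonneg 2
  have hr' : (2 : ℝ) ≤ r := by exact_mod_cast hr
  rw [beta, ncard_K, internal_K hr, compP3_K hr, min_eq_left]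
  · congr 1
    simp only [Fintype.card_sum, Fintype.card_fin]
    push_cast
    ring
  · simp only [Fintype.card_sum, Fintype.card_fin]
    push_cast
    nlinarith

theorem tau_K {r : ℕ} (hr : 1 ≤ r) : tau (K r) ≤ (((5 + 2 * √7) * r + 2 : ℝ) : EReal) := by
  refine iSup₂_le fun t ht => ?_
  have h := key (ht t le_rfl)
  rw [EReal.coe_le_coe_iff]
  have h' : (t : ℝ) * t ≤ 10 * r * t + 3 * r * r + r + t := by exact_mod_cast h
  have h7 : √7 * √7 = 7 := Real.mul_self_sqrt (by norm_num)
  have h5 : 5 / 2 ≤ √7 := by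
    rw [Real.le_sqrt (by norm_num) (by norm_num)]
    norm_num
  have hr' : (1 : ℝ) ≤ r := by exact_mod_cast hr
  by_contra hc
  rw [not_le] at hc
  have hp : 0 ≤ (2 * √7 - 5) * r := mul_nonneg (by linarith) (by linarith)
  have h1 : ((5 + 2 * √7) * r + 2) * ((2 * √7 - 5) * r + 1) ≤ t * (t - 10 * r - 1) := by
    refine mul_le_mul hc.le (by linarith) (by linarith) (by positivity)
  have h2 : ((5 + 2 * √7) * r + 2) * ((2 * √7 - 5) * r + 1) =
      (4 * (√7 * √7) - 25) * r ^ 2 + (6 * √7 - 5) * r + 2 := by ring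
  rw [h2, h7] at h1
  nlinarith

/-- There is a graph `G` with `τ(G) < β(G)`: every `K_{2,r}`, `r ≥ 37`, is one, and the
difference is at least linear in `r`. -/
theorem result :
    (∃ (V : Type) (_ : Fintype V) (G : SimpleGraph V), (∀ v, (G.neighborSet v).Nonempty) ∧
      (∀ c : G.ConnectedComponent, IsEmpty (G.induce c.supp ≃g pathGraph 2)) ∧
      0 ≤ beta G ∧ tau G < ((beta G : ℝ) : EReal)) ∧
    (∀ r : ℕ, 2 ≤ r →
      tau (completeBipartiteGraph (Fin 2) (Fin r)) ≤ (((5 + 2 * √7) * r + 2 : ℝ) : EReal) ∧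
      beta (completeBipartiteGraph (Fin 2) (Fin r)) =
        ⌊(5 + 4 * √2) * (r : ℝ) - (11 + 7 * √2) / 2⌋) ∧
    (∀ r : ℕ, 37 ≤ r → tau (completeBipartiteGraph (Fin 2) (Fin r)) <
      ((beta (completeBipartiteGraph (Fin 2) (Fin r)) : ℝ) : EReal)) := by
  have hlt : ∀ r : ℕ, 37 ≤ r → tau (K r) < ((beta (K r) : ℝ) : EReal) ∧ 0 ≤ beta (K r) := by
    intro r hr
    have hr' : (37 : ℝ) ≤ r := by exact_mod_cast hr
    have h1 := tau_K (r := r) (by omega)
    have h2 := beta_K (r := r) (by omega)
    have h3 : (5 + 4 * √2) * (r : ℝ) - (11 + 7 * √2) / 2 - 1 < beta (K r) := by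
      rw [h2]
      exact Int.sub_one_lt_floor _
    have hs2 : 1.41421 ≤ √2 := by
      rw [Real.le_sqrt (by norm_num) (by norm_num)]
      norm_num
    have hs2' : √2 ≤ 1.41422 := by
      rw [Real.sqrt_le_left (by norm_num)]
      norm_num
    have hs7 : √7 ≤ 2.64576 := by
      rw [Real.sqrt_le_left (by norm_num)]
      norm_num
    have h4 : (5 + 2 * √7) * (r : ℝ) + 2 < beta (K r) := by
      refine lt_of_le_of_lt ?_ h3
      nlinarith
    refine ⟨h1.trans_lt (EReal.coe_lt_coe_iff.2 h4), ?_⟩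
    have : (0 : ℝ) < beta (K r) := lt_trans (by positivity) h4
    exact_mod_cast this.le
  refine ⟨⟨Fin 2 ⊕ Fin 37, inferInstance, K 37, fun v => ?_, fun c => ?_, (hlt 37 le_rfl).2,
    (hlt 37 le_rfl).1⟩, fun r hr => ⟨tau_K (by omega), beta_K hr⟩, fun r hr => (hlt r hr).1⟩
  · obtain ⟨a, _, _, ha, _⟩ := two_nbrs (r := 37) (by norm_num) v
    exact ⟨a, ha⟩
  · exact no_path (K 37) (two_nbrs (by norm_num)) c 0

end Pool.Agent.Results.MP_f5b38d_co.TauBelowBeta
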